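import Mathlib
import Pool.Agent.Helper126.Sus.Forc
import Pool.Agent.W876.Two.Gen
import Pool.Agent.W876.Sel.Lang
import Pool.Agent.W876.Sel.Main

/-!
# A selectively (a) almost disjoint family of size the dominating number

Some forcing notion with the countable chain condition forces that the dominating number is `ℵ₁`
and that some almost disjoint family of size `ℵ₁` has a selectively (a) Psi-space.
-/

namespace Pool.Agent.Results.MP_556855_lc.SelectivelyAFamilyOfSizeD

open Cardinal Pool.Agent.Helper126.Sus.Forc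

open Pool.Agent.W876.Two.Gen (CardinalsPreserved)

open Pool.Agent.W876.Sel

theorem result : ∃ (P : Type) (_ : Preorder P), Nonempty P ∧ CCC P ∧ ∀ p : P,
    p ∈ CardinalsPreserved P ∧
    (p ∈ fex fun g : K1 → ℕ → ℕ → Set P => IsDominating g) ∧
    p ∈ fex fun A : K1 → ℕ → Set P => fand (IsAD A) (SelectivelyA A) := by
  obtain ⟨P, hP, h1, h2, h3⟩ := exists_forcing
  refine ⟨P, hP, h1, h2, fun p => ⟨(h3 p).1, (h3 p).2.1, (h3 p).2.2 K1 ?_⟩⟩
  simp

end Pool.Agent.Results.MP_556855_lc.SelectivelyAFamilyOfSizeD
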